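import Pool.Agent.W64.DM.Stm

set_option autoImplicit false

/-!
Project DM (helper64), part NOT: no simultaneous approximation (pigeonhole).
-/

namespace Pool.Agent.W15.DM.NOT

open Pool.Agent.W64.DM Filter Topology

theorem expo (K : ℝ) (k : ℕ) : ∃ R0 : ℕ, ∀ R : ℕ, R0 ≤ R → K * (R : ℝ) ^ k < 2 ^ (R / 8) := by
  have h := tendsto_pow_const_div_const_pow_of_one_lt k (one_lt_two : (1 : ℝ) < 2)
  have hK : 0 < |K| + 1 := by positivity
  have hε : 0 < 1 / (2 * (|K| + 1) * 8 ^ k) := by positivity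
  obtain ⟨n0, hn0⟩ := eventually_atTop.1 (h.eventually (gt_mem_nhds hε))
  refine ⟨8 * n0, fun R hR => ?_⟩
  have hR' : n0 ≤ R / 8 + 1 := by omega
  have h1 := hn0 _ hR'
  have h2 : (R : ℝ) ≤ 8 * ((R / 8 + 1 : ℕ) : ℝ) := by
    have : R ≤ 8 * (R / 8 + 1) := by omega
    exact_mod_cast this
  have h3 : (R : ℝ) ^ k ≤ 8 ^ k * ((R / 8 + 1 : ℕ) : ℝ) ^ k := by
    rw [← mul_pow]
    exact pow_le_pow_left₀ (by positivity) h2 k
  rw [div_lt_div_iff₀ (by positivity) (by positivity), one_mul, pow_succ] at h1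
  have h4 : 0 < (2 : ℝ) ^ (R / 8) := by positivity
  have h5 : ((R / 8 + 1 : ℕ) : ℝ) ^ k * ((|K| + 1) * 8 ^ k) < 2 ^ (R / 8) := by
    nlinarith
  have h6 : K * (R : ℝ) ^ k ≤ (|K| + 1) * (R : ℝ) ^ k := by
    apply mul_le_mul_of_nonneg_right _ (by positivity)
    linarith [le_abs_self K]
  have h7 : (|K| + 1) * (R : ℝ) ^ k ≤ (|K| + 1) * (8 ^ k * ((R / 8 + 1 : ℕ) : ℝ) ^ k) :=
    mul_le_mul_of_nonneg_left h3 hK.le
  calc K * (R : ℝ) ^ k ≤ (|K| + 1) * (8 ^ k * ((R / 8 + 1 : ℕ) : ℝ) ^ k) := h6.trans h7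
    _ = ((R / 8 + 1 : ℕ) : ℝ) ^ k * ((|K| + 1) * 8 ^ k) := by ring
    _ < _ := h5

theorem main : S_NOT := by
  classical
  intro d α c0 C hd hNA
  obtain ⟨hc0, hNA⟩ := hNA
  obtain ⟨R1, hR1⟩ := expo (4 * C) (d + 1)
  obtain ⟨R2, hR2⟩ := expo (4 * d * (7 * d) ^ (d + 1) / c0) (d + 1)
  refine ⟨max (max R1 R2) 8, ?_⟩
  intro R hR a b p t ha hb hp hp1 hp2 ht htp
  have hR8 : 8 ≤ R := le_trans (le_max_right _ _) hR
  have hA := hR1 R (le_trans (le_trans (le_max_left _ _) (le_max_left _ _)) hR)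
  have hB := hR2 R (le_trans (le_trans (le_max_right _ _) (le_max_left _ _)) hR)
  by_contra hcon
  push Not at hcon
  have hp0 : 0 < p := by
    rcases Nat.eq_zero_or_pos p with h | h
    · subst h
      have : 0 < 2 ^ R := by positivity
      omega
    · exact h
  set j := R / 8 with hj
  set q := R / 4 with hq
  have hj1 : 1 ≤ j := by omega
  have hjq : 2 * j ≤ q := by omega
  have hqR : 4 * q ≤ R := by omega
  -- the box
  set M : Fin d → ℕ := fun i => 2 ^ (a i - j) * p with hM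
  have hM2 : ∀ i, 2 ≤ M i := by
    intro i
    have h1 := (ha i).1
    have h2 : 1 ≤ a i - j := by omega
    have h3 : 2 ^ 1 ≤ 2 ^ (a i - j) := Nat.pow_le_pow_right (by norm_num) h2
    show 2 ≤ 2 ^ (a i - j) * p
    nlinarith
  set H : ℝ := ∏ i, (M i : ℝ) with hH
  have hH1 : 1 ≤ H := by
    have h1 : ∏ _i : Fin d, (1 : ℝ) ≤ ∏ i, (M i : ℝ) := by
      apply Finset.prod_le_prod
      · intro i _; norm_num
      · intro i _
        have := hM2 i
        exact_mod_cast (by omega : 1 ≤ M i)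
    simpa using h1
  have hHeq : H = 2 ^ (∑ i, (a i - j)) * (p : ℝ) ^ d := by
    rw [hH]
    simp only [hM]
    push_cast
    rw [Finset.prod_mul_distrib, Finset.prod_const, Finset.card_univ, Fintype.card_fin,
      Finset.prod_pow_eq_pow_sum]
  have hHle : H ≤ 2 ^ (6 * R * d) := by
    have h1 : ∏ i, (M i : ℝ) ≤ ∏ _i : Fin d, (2 : ℝ) ^ (6 * R) := by
      apply Finset.prod_le_prod
      · intro i _; positivity
      · intro i _
        have h2 : M i ≤ 2 ^ (6 * R) := by
          show 2 ^ (a i - j) * p ≤ 2 ^ (6 * R)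
          have h3 : 2 ^ (a i - j) ≤ 2 ^ (4 * R) :=
            Nat.pow_le_pow_right (by norm_num) (by have := (ha i).2; omega)
          calc 2 ^ (a i - j) * p ≤ 2 ^ (4 * R) * 2 ^ (2 * R) := Nat.mul_le_mul h3 hp.le
            _ = 2 ^ (6 * R) := by rw [← pow_add]; congr 1; ring
        exact_mod_cast h2
    rw [Finset.prod_const, Finset.card_univ, Fintype.card_fin, ← pow_mul] at h1
    exact h1
  have hlog2 : Real.log 2 ≤ 1 := by linarith [Real.log_two_lt_d9]
  have hlogH0 : 0 < Real.log (2 * H) := Real.log_pos (by linarith)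
  have hdR : (1 : ℝ) ≤ d := by exact_mod_cast hd
  have hRR : (8 : ℝ) ≤ R := by exact_mod_cast hR8
  have hlogH : Real.log (2 * H) ≤ 7 * d * R := by
    have h1 : 2 * H ≤ 2 ^ (6 * R * d + 1) := by
      rw [pow_succ]; linarith
    have h2 : Real.log (2 * H) ≤ ((6 * R * d + 1 : ℕ) : ℝ) * Real.log 2 := by
      rw [← Real.log_pow]
      exact Real.log_le_log (by linarith) h1
    have h3 : ((6 * R * d + 1 : ℕ) : ℝ) * Real.log 2 ≤ ((6 * R * d + 1 : ℕ) : ℝ) * 1 :=
      mul_le_mul_of_nonneg_left hlog2 (by positivity)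
    push_cast at h2 h3
    nlinarith
  set rho : ℝ := c0 / (H * Real.log (2 * H) ^ (d + 1)) with hrho
  have hden : 0 < H * Real.log (2 * H) ^ (d + 1) := by positivity
  have hrho0 : 0 < rho := div_pos hc0 hden
  have htR : (1 : ℝ) ≤ t := by exact_mod_cast ht
  have htR0 : (0 : ℝ) < t := by linarith
  have hpR : (0 : ℝ) < p := by exact_mod_cast hp0
  -- rounding
  set z : Fin d → ℤ := fun i => round ((t : ℝ) * α i) with hz
  set th : Fin d → ℝ := fun i => (t : ℝ) * α i - z i with hth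
  have hthb : ∀ i, |th i| < 1 / ((2 : ℝ) ^ a i * p) := fun i => hcon i
  set xx : (Fin d → ℕ) → ℝ := fun m => (∑ i, (m i : ℝ) * th i) / t with hxx
  set kap : ℝ := (d : ℝ) / 2 ^ j / t with hkap
  have hkap0 : 0 ≤ kap := by positivity
  have hxb : ∀ m : Fin d → ℕ, (∀ i, m i ≤ M i) → |xx m| ≤ kap := by
    intro m hm
    have h1 : |∑ i, (m i : ℝ) * th i| ≤ ∑ _i : Fin d, (1 : ℝ) / 2 ^ j := by
      refine (Finset.abs_sum_le_sum_abs _ _).trans (Finset.sum_le_sum fun i _ => ?_)
      rw [abs_mul, Nat.abs_cast]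
      have h2 : (m i : ℝ) ≤ M i := by exact_mod_cast hm i
      have h3 : (m i : ℝ) * |th i| ≤ (M i : ℝ) * (1 / ((2 : ℝ) ^ a i * p)) :=
        mul_le_mul h2 (hthb i).le (abs_nonneg _) (by positivity)
      refine h3.trans (le_of_eq ?_)
      have h4 : (2 : ℝ) ^ a i = 2 ^ (a i - j) * 2 ^ j := by
        rw [← pow_add]
        congr 1
        have := (ha i).1
        omega
      simp only [hM]
      push_cast
      rw [h4]
      field_simp
    rw [Finset.sum_const, Finset.card_univ, Fintype.card_fin, nsmul_eq_mul] at h1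
    simp only [hxx, hkap]
    rw [abs_div, abs_of_pos htR0]
    apply div_le_div_of_nonneg_right _ htR0.le
    rw [mul_one_div] at h1
    exact h1
  -- pigeonhole
  set B : ℕ := ⌊kap / rho⌋₊ with hBdef
  have hkr : 0 ≤ kap / rho := by positivity
  have hB1 : (B : ℝ) ≤ kap / rho := Nat.floor_le hkr
  have hB2 : kap / rho < B + 1 := Nat.lt_floor_add_one _
  set S : Finset (Fin d → ℕ) := Fintype.piFinset (fun i => Finset.range (M i + 1)) with hS
  set T : Finset (ℕ × ℤ) := Finset.range t ×ˢ Finset.Icc (-((B : ℤ) + 1)) (B : ℤ) with hT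
  set f : (Fin d → ℕ) → ℕ × ℤ := fun m =>
    (((∑ i, (m i : ℤ) * z i) % (t : ℤ)).toNat, ⌊xx m / rho⌋) with hf
  have hmS : ∀ m ∈ S, ∀ i, m i ≤ M i := by
    intro m hm i
    have := Fintype.mem_piFinset.1 hm i
    rw [Finset.mem_range] at this
    omega
  have hmaps : ∀ m ∈ S, f m ∈ T := by
    intro m hm
    rw [hT, Finset.mem_product, Finset.mem_range, Finset.mem_Icc]
    have ht' : (0 : ℤ) < t := by exact_mod_cast ht
    refine ⟨?_, ?_, ?_⟩
    · have h1 := Int.emod_lt_of_pos (∑ i, (m i : ℤ) * z i) ht'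
      have h2 := Int.emod_nonneg (∑ i, (m i : ℤ) * z i) ht'.ne'
      show ((∑ i, (m i : ℤ) * z i) % (t : ℤ)).toNat < t
      omega
    · show -((B : ℤ) + 1) ≤ ⌊xx m / rho⌋
      rw [Int.le_floor]
      have h1 := (abs_le.1 (hxb m (hmS m hm))).1
      have h2 : -(kap / rho) ≤ xx m / rho := by
        rw [← neg_div]
        exact div_le_div_of_nonneg_right h1 hrho0.le
      push_cast
      linarith
    · show ⌊xx m / rho⌋ ≤ (B : ℤ)
      rw [← Int.lt_add_one_iff, Int.floor_lt]
      have h1 := (abs_le.1 (hxb m (hmS m hm))).2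
      have h2 : xx m / rho ≤ kap / rho := div_le_div_of_nonneg_right h1 hrho0.le
      push_cast
      linarith
  have hTc : (T.card : ℝ) = t * (2 * B + 2) := by
    rw [hT, Finset.card_product, Finset.card_range, Int.card_Icc]
    have h1 : ((B : ℤ) + 1 - -((B : ℤ) + 1)).toNat = 2 * B + 2 := by omega
    rw [h1]
    push_cast
    ring
  have hSc : H ≤ (S.card : ℝ) := by
    rw [hS, Fintype.card_piFinset]
    push_cast
    rw [hH]
    apply Finset.prod_le_prod
    · intro i _; positivity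
    · intro i _
      rw [Finset.card_range]
      push_cast
      linarith
  -- numerics
  have num1 : 4 * (t : ℝ) ≤ H := by
    have h1 : (2 : ℝ) ^ b * (2 ^ R) ^ d ≤ (p * 2 ^ q) ^ (d + 1) := by
      have e1 : (2 : ℝ) ^ b ≤ p * 2 ^ q := by exact_mod_cast hp2
      have e2 : (2 : ℝ) ^ R ≤ p * 2 ^ q := by exact_mod_cast hp1
      rw [pow_succ']
      exact mul_le_mul e1 (pow_le_pow_left₀ (by positivity) e2 d) (by positivity) (by positivity)
    have h2 : 4 * C * (R : ℝ) ^ (d + 1) ≤ 2 ^ q := by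
      refine hA.le.trans ?_
      exact pow_le_pow_right₀ (by norm_num) (by omega)
    have h3 : (2 : ℝ) ^ q * 2 ^ (d * j) * 2 ^ (q * (d + 1)) ≤ (2 ^ R) ^ d := by
      rw [← pow_add, ← pow_add, ← pow_mul]
      apply pow_le_pow_right₀ (by norm_num)
      have e1 : q ≤ q * d := Nat.le_mul_of_pos_right _ (by omega)
      have e2 : d * (2 * j) ≤ d * q := Nat.mul_le_mul_left _ hjq
      have e3 : 4 * q * d ≤ R * d := Nat.mul_le_mul_right _ hqR
      nlinarith
    have h4 : 4 * C * (R : ℝ) ^ (d + 1) * 2 ^ (d * j) * 2 ^ b ≤ (p : ℝ) ^ (d + 1) := by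
      have e0 : (0 : ℝ) < 2 ^ (q * (d + 1)) := by positivity
      have e1 : 4 * C * (R : ℝ) ^ (d + 1) * 2 ^ (d * j) * 2 ^ b * 2 ^ (q * (d + 1)) ≤
          (p : ℝ) ^ (d + 1) * 2 ^ (q * (d + 1)) := by
        calc 4 * C * (R : ℝ) ^ (d + 1) * 2 ^ (d * j) * 2 ^ b * 2 ^ (q * (d + 1))
            = (4 * C * (R : ℝ) ^ (d + 1)) * (2 ^ (d * j) * 2 ^ b * 2 ^ (q * (d + 1))) := by ring
          _ ≤ 2 ^ q * (2 ^ (d * j) * 2 ^ b * 2 ^ (q * (d + 1))) :=
            mul_le_mul_of_nonneg_right h2 (by positivity)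
          _ = 2 ^ b * (2 ^ q * 2 ^ (d * j) * 2 ^ (q * (d + 1))) := by ring
          _ ≤ 2 ^ b * (2 ^ R) ^ d := mul_le_mul_of_nonneg_left h3 (by positivity)
          _ ≤ (p * 2 ^ q) ^ (d + 1) := h1
          _ = (p : ℝ) ^ (d + 1) * 2 ^ (q * (d + 1)) := by rw [mul_pow, ← pow_mul]
      exact le_of_mul_le_mul_right e1 e0
    have h5 : ∑ i, a i = ∑ i, (a i - j) + d * j := by
      have : ∀ i, a i = (a i - j) + j := fun i => by
        have := (ha i).1
        omega
      calc ∑ i, a i = ∑ i, ((a i - j) + j) := Finset.sum_congr rfl fun i _ => this i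
        _ = _ := by
          rw [Finset.sum_add_distrib, Finset.sum_const, Finset.card_univ, Fintype.card_fin,
            smul_eq_mul]
    have h6 : 4 * (t : ℝ) * p ≤ H * p := by
      calc 4 * (t : ℝ) * p = 4 * (t * p) := by ring
        _ ≤ 4 * (C * (R : ℝ) ^ (d + 1) * 2 ^ (∑ i, a i + b)) := by linarith
        _ = 2 ^ (∑ i, (a i - j)) * (4 * C * (R : ℝ) ^ (d + 1) * 2 ^ (d * j) * 2 ^ b) := by
          rw [h5, pow_add, pow_add]; ring
        _ ≤ 2 ^ (∑ i, (a i - j)) * (p : ℝ) ^ (d + 1) := mul_le_mul_of_nonneg_left h4 (by positivity)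
        _ = H * p := by rw [hHeq, pow_succ]; ring
    exact le_of_mul_le_mul_right h6 hpR
  have num2 : 2 * ((d : ℝ) / 2 ^ j) / rho < H / 2 := by
    have h1 : 4 * (d : ℝ) * Real.log (2 * H) ^ (d + 1) < c0 * 2 ^ j := by
      have e1 : Real.log (2 * H) ^ (d + 1) ≤ (7 * d * R) ^ (d + 1) :=
        pow_le_pow_left₀ hlogH0.le hlogH _
      have e2 : 4 * (d : ℝ) * Real.log (2 * H) ^ (d + 1) ≤ 4 * d * (7 * d * R) ^ (d + 1) :=
        mul_le_mul_of_nonneg_left e1 (by positivity)
      have e3 : 4 * (d : ℝ) * (7 * d * R) ^ (d + 1) =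
          c0 * (4 * d * (7 * d) ^ (d + 1) / c0 * (R : ℝ) ^ (d + 1)) := by
        rw [mul_pow]
        field_simp
      rw [e3] at e2
      exact e2.trans_lt (mul_lt_mul_of_pos_left hB hc0)
    have h2 : 2 * ((d : ℝ) / 2 ^ j) / rho =
        (4 * (d : ℝ) * Real.log (2 * H) ^ (d + 1)) / (c0 * 2 ^ j) * (H / 2) := by
      rw [hrho]
      field_simp
      ring
    rw [h2]
    have h3 : (4 * (d : ℝ) * Real.log (2 * H) ^ (d + 1)) / (c0 * 2 ^ j) < 1 := by
      rw [div_lt_one (by positivity)]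
      exact h1
    have h4 : 0 < H / 2 := by linarith
    nlinarith
  have hcard : T.card < S.card := by
    have h1 : (T.card : ℝ) < S.card := by
      rw [hTc]
      have e1 : (t : ℝ) * (2 * B + 2) ≤ t * (2 * (kap / rho) + 2) :=
        mul_le_mul_of_nonneg_left (by linarith) htR0.le
      have e2 : (t : ℝ) * (2 * (kap / rho) + 2) = 2 * ((d : ℝ) / 2 ^ j) / rho + 2 * t := by
        rw [hkap]
        field_simp
      linarith
    exact_mod_cast h1
  obtain ⟨m, hm, m', hm', hne, hff⟩ := Finset.exists_ne_map_eq_of_card_lt_of_maps_to hcard hmaps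
  simp only [hf, Prod.mk.injEq] at hff
  obtain ⟨hcl, hfl⟩ := hff
  -- the difference
  set w : Fin d → ℤ := fun i => (m i : ℤ) - m' i with hw
  have hw0 : w ≠ 0 := by
    intro h
    apply hne
    funext i
    have : (m i : ℤ) - m' i = 0 := congrFun h i
    omega
  have ht' : (t : ℤ) ≠ 0 := by exact_mod_cast (by omega : t ≠ 0)
  have hdvd : (t : ℤ) ∣ ∑ i, w i * z i := by
    have h1 := Int.emod_nonneg (∑ i, (m i : ℤ) * z i) ht'
    have h2 := Int.emod_nonneg (∑ i, (m' i : ℤ) * z i) ht'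
    have h3 : (∑ i, (m i : ℤ) * z i) % (t : ℤ) = (∑ i, (m' i : ℤ) * z i) % (t : ℤ) := by omega
    have h4 : ∑ i, w i * z i = (∑ i, (m i : ℤ) * z i) - ∑ i, (m' i : ℤ) * z i := by
      rw [← Finset.sum_sub_distrib]
      exact Finset.sum_congr rfl fun i _ => by simp only [hw]; ring
    rw [h4]
    exact Int.ModEq.dvd (Eq.symm h3)
  obtain ⟨Q, hQ⟩ := hdvd
  have hdot : dotp α w = Q + (xx m - xx m') := by
    have h1 : (t : ℝ) * dotp α w = t * (Q + (xx m - xx m')) := by
      have e1 : (t : ℝ) * dotp α w = ∑ i, (w i : ℝ) * (z i + th i) := by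
        unfold dotp
        rw [Finset.mul_sum]
        refine Finset.sum_congr rfl fun i _ => ?_
        simp only [hth]
        ring
      have e2 : ∑ i, (w i : ℝ) * (z i + th i) =
          ((∑ i, w i * z i : ℤ) : ℝ) + ((∑ i, (m i : ℝ) * th i) - ∑ i, (m' i : ℝ) * th i) := by
        push_cast
        rw [← Finset.sum_sub_distrib, ← Finset.sum_add_distrib]
        refine Finset.sum_congr rfl fun i _ => ?_
        simp only [hw]
        push_cast
        ring
      rw [e1, e2, hQ]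
      simp only [hxx]
      push_cast
      field_simp
    exact mul_left_cancel₀ htR0.ne' h1
  have hsmall : |xx m - xx m'| < rho := by
    have h1 := Int.abs_sub_lt_one_of_floor_eq_floor hfl
    rw [← sub_div, abs_div, abs_of_pos hrho0, div_lt_one hrho0] at h1
    exact h1
  have hnn : nn (dotp α w) < rho := by
    have h1 := round_le (dotp α w) Q
    refine lt_of_le_of_lt h1 ?_
    rw [hdot]
    simpa using hsmall
  have hHm1 : 1 ≤ Hm w := by
    have h1 : ∏ _i : Fin d, (1 : ℝ) ≤ ∏ i, max |(w i : ℝ)| 2 := by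
      apply Finset.prod_le_prod
      · intro i _; norm_num
      · intro i _
        exact le_trans (by norm_num) (le_max_right _ _)
    unfold Hm
    simpa using h1
  have hHmH : Hm w ≤ H := by
    apply Finset.prod_le_prod
    · intro i _; positivity
    · intro i _
      apply max_le
      · have e1 := hmS m hm i
        have e2 := hmS m' hm' i
        have e3 : |w i| ≤ (M i : ℤ) := by
          rw [abs_le]
          simp only [hw]
          omega
        have e4 : ((|w i| : ℤ) : ℝ) ≤ ((M i : ℤ) : ℝ) := by exact_mod_cast e3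
        rw [Int.cast_abs] at e4
        simpa using e4
      · exact_mod_cast hM2 i
  have hfin := hNA w hw0
  have hle : rho ≤ c0 / (Hm w * Real.log (2 * Hm w) ^ (d + 1)) := by
    rw [hrho]
    have e0 : 0 < Real.log (2 * Hm w) := Real.log_pos (by linarith)
    apply div_le_div_of_nonneg_left hc0.le (by positivity)
    apply mul_le_mul hHmH _ (by positivity) (by positivity)
    exact pow_le_pow_left₀ e0.le (Real.log_le_log (by linarith) (by linarith)) _
  linarith

end Pool.Agent.W15.DM.NOT
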